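import Pool.Agent.R460.GX.Mid
import Pool.Agent.R460.GS.Conv

set_option autoImplicit false

/-! The theorems on the Goldbach representations of `2 n` for the `n` in a residue class, continued. -/

namespace Pool.Agent.R460.GX

open Finset
open Pool.Agent.H560R3.GB (sing)
open Pool.Agent.W93.PG (cnt WinP)
open Pool.Agent.R460.GS (WinL)

theorem mid_asymp (Q : ℕ → Prop) (ε : ℝ) (hε : 0 < ε) (W : ℕ)
    (hQ : ∃ n₀ : ℕ, ∀ n : ℕ, n₀ ≤ n → WinP ε W (2 * n) → Q n) (ρ : ℝ) (hρ : 0 < ρ) (A T : ℕ) :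
    ∃ x₀ : ℝ, ∀ x : ℝ, x₀ ≤ x → ∀ q : ℕ, 1 ≤ q → (q : ℝ) ≤ x ^ (2 / 3 - ρ) → ∀ a : ℤ,
      (Int.gcd a q : ℝ) ≤ Real.log x ^ T →
        ({n : ℕ | 0 < n ∧ (n : ℝ) ≤ x ∧ (n : ℤ) ≡ a [ZMOD q] ∧ ¬ Q n}).Finite ∧
        (({n : ℕ | 0 < n ∧ (n : ℝ) ≤ x ∧ (n : ℤ) ≡ a [ZMOD q] ∧ ¬ Q n}.ncard : ℕ) : ℝ) ≤
          x / (q * Real.log x ^ A) := by
  obtain ⟨n₀, h0⟩ := hQ
  refine mid_transfer (θ := 2 / 3) Q (fun ρ hρ A T => ?_) ρ hρ A T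
  refine Pool.Agent.R460.GH.class_asymp (fun m => Q (m / 2)) ε hε W ⟨2 * n₀, fun m hm h2 hw => ?_⟩ ρ hρ A T
  obtain ⟨n, rfl⟩ := h2
  rw [Nat.mul_div_cancel_left _ (by norm_num)]
  exact h0 n (by omega) hw

theorem mid_few (Q : ℕ → Prop) (W : ℕ)
    (hQ : ∃ n₀ : ℕ, ∀ n : ℕ, n₀ ≤ n → WinL W (2 * n) → Q n) (ρ : ℝ) (hρ : 0 < ρ) (A T : ℕ) :
    ∃ x₀ : ℝ, ∀ x : ℝ, x₀ ≤ x → ∀ q : ℕ, 1 ≤ q → (q : ℝ) ≤ x ^ (7 / 10 - ρ) → ∀ a : ℤ,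
      (Int.gcd a q : ℝ) ≤ Real.log x ^ T →
        ({n : ℕ | 0 < n ∧ (n : ℝ) ≤ x ∧ (n : ℤ) ≡ a [ZMOD q] ∧ ¬ Q n}).Finite ∧
        (({n : ℕ | 0 < n ∧ (n : ℝ) ≤ x ∧ (n : ℤ) ≡ a [ZMOD q] ∧ ¬ Q n}.ncard : ℕ) : ℝ) ≤
          x / (q * Real.log x ^ A) := by
  obtain ⟨n₀, h0⟩ := hQ
  refine mid_transfer (θ := 7 / 10) Q (fun ρ hρ A T => ?_) ρ hρ A T
  refine Pool.Agent.R460.GS.class_few (fun m => Q (m / 2)) W ⟨2 * n₀, fun m hm h2 hw => ?_⟩ ρ hρ A T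
  obtain ⟨n, rfl⟩ := h2
  rw [Nat.mul_div_cancel_left _ (by norm_num)]
  exact h0 n (by omega) hw

/-- the length of a window -/
lemma win_len {n W : ℕ} (hn : 8 ≤ n) {Δ : ℝ} (h : (n : ℝ) / Real.log n ^ W ≤ Δ) :
    ((2 * n : ℕ) : ℝ) / Real.log ((2 * n : ℕ) : ℝ) ^ (W + 1) ≤ Δ := by
  refine le_trans ?_ h
  have hn0 : (8 : ℝ) ≤ n := by exact_mod_cast hn
  have h1 : Real.log n ≤ Real.log ((2 * n : ℕ) : ℝ) := Real.log_le_log (by linarith) (by push_cast; linarith)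
  have h8 : 2 ≤ Real.log (8 : ℝ) := by
    have : (8 : ℝ) = 2 ^ 3 := by norm_num
    rw [this, Real.log_pow]
    have := Real.log_two_gt_d9
    push_cast
    linarith
  have h2 : 2 ≤ Real.log n := h8.trans (Real.log_le_log (by norm_num) hn0)
  obtain ⟨l, hl⟩ : ∃ l, l = Real.log (n : ℝ) := ⟨_, rfl⟩
  obtain ⟨l', hl'⟩ : ∃ l', l' = Real.log ((2 * n : ℕ) : ℝ) := ⟨_, rfl⟩
  rw [← hl, ← hl'] at h1
  rw [← hl] at h2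
  rw [← hl, ← hl']
  push_cast
  have h4 : 2 ≤ l' := by linarith
  have h5 : 0 < l' := by linarith
  have h3 : l ^ W ≤ l' ^ W := pow_le_pow_left₀ (by linarith) h1 _
  have hl0 : 0 < l ^ W := by positivity
  rw [div_le_div_iff₀ (by positivity) hl0]
  calc 2 * (n : ℝ) * l ^ W ≤ 2 * (n : ℝ) * l' ^ W := by gcongr
    _ ≤ l' * (n : ℝ) * l' ^ W := by gcongr
    _ = n * l' ^ (W + 1) := by ring

end Pool.Agent.R460.GX
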