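import Pool.Agent.R460.GH.Conv

set_option autoImplicit false

/-! The theorems on the Goldbach representations of `2 n` for the `n` in a residue class. -/

namespace Pool.Agent.R460.GX

open Finset
open Pool.Agent.R460.GS (real_log)

/-- from the even integers in the classes to their halves -/
theorem mid_transfer {θ : ℝ} (Q : ℕ → Prop)
    (h : ∀ (ρ : ℝ), 0 < ρ → ∀ A T : ℕ, ∃ x₀ : ℝ, ∀ x : ℝ, x₀ ≤ x → ∀ q : ℕ, 1 ≤ q → (q : ℝ) ≤ x ^ (θ - ρ) → ∀ a : ℤ,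
      (Int.gcd a q : ℝ) ≤ Real.log x ^ T →
        ({n : ℕ | 0 < n ∧ (n : ℝ) ≤ x ∧ 2 ∣ n ∧ (n : ℤ) ≡ a [ZMOD q] ∧ ¬ Q (n / 2)}).Finite ∧
        (({n : ℕ | 0 < n ∧ (n : ℝ) ≤ x ∧ 2 ∣ n ∧ (n : ℤ) ≡ a [ZMOD q] ∧ ¬ Q (n / 2)}.ncard : ℕ) : ℝ) ≤
          x / (q * Real.log x ^ A)) (ρ : ℝ) (hρ : 0 < ρ) (A T : ℕ) :
    ∃ x₀ : ℝ, ∀ x : ℝ, x₀ ≤ x → ∀ q : ℕ, 1 ≤ q → (q : ℝ) ≤ x ^ (θ - ρ) → ∀ a : ℤ,
      (Int.gcd a q : ℝ) ≤ Real.log x ^ T →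
        ({n : ℕ | 0 < n ∧ (n : ℝ) ≤ x ∧ (n : ℤ) ≡ a [ZMOD q] ∧ ¬ Q n}).Finite ∧
        (({n : ℕ | 0 < n ∧ (n : ℝ) ≤ x ∧ (n : ℤ) ≡ a [ZMOD q] ∧ ¬ Q n}.ncard : ℕ) : ℝ) ≤
          x / (q * Real.log x ^ A) := by
  obtain ⟨x₀, h0⟩ := h (ρ / 2) (by linarith) A (T + 1)
  obtain ⟨x₁, h1⟩ := Filter.eventually_atTop.1 (real_log 1 (s := ρ / 2) (by linarith) 2)
  refine ⟨max (max x₀ x₁) 2, fun x hx q hq1 hqx a ha => ?_⟩
  obtain ⟨hL, hLp⟩ := h1 x ((le_max_right _ _).trans ((le_max_left _ _).trans hx))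
  have hx₀ : x₀ ≤ x := (le_max_left _ _).trans ((le_max_left _ _).trans hx)
  have hx2 : 2 ≤ x := (le_max_right _ _).trans hx
  have hx0 : 0 < x := by linarith
  have hL0 : 0 < Real.log x := by linarith
  have hLL : Real.log x ≤ Real.log (2 * x) := Real.log_le_log hx0 (by linarith)
  have hq0 : (0 : ℝ) < q := by exact_mod_cast hq1
  have hqr : (1 : ℝ) ≤ q := by exact_mod_cast hq1
  have hcond : ((2 * q : ℕ) : ℝ) ≤ (2 * x) ^ (θ - ρ / 2) := by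
    rcases lt_or_ge (θ - ρ) 0 with hneg | hpos
    · have h5 : x ^ (θ - ρ) < 1 := Real.rpow_lt_one_of_one_lt_of_neg (by linarith) hneg
      linarith
    · push_cast
      rw [pow_one] at hLp
      calc 2 * (q : ℝ) ≤ x ^ (ρ / 2) * x ^ (θ - ρ) := by
            apply mul_le_mul (hL.trans hLp) hqx hq0.le (Real.rpow_nonneg hx0.le _)
        _ = x ^ (θ - ρ / 2) := by
            rw [← Real.rpow_add hx0]
            congr 1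
            ring
        _ ≤ (2 * x) ^ (θ - ρ / 2) := Real.rpow_le_rpow hx0.le (by linarith) (by linarith)
  have hgcd : (Int.gcd (2 * a) ((2 * q : ℕ) : ℤ) : ℝ) ≤ Real.log (2 * x) ^ (T + 1) := by
    have e : ((2 * q : ℕ) : ℤ) = 2 * (q : ℤ) := by push_cast; ring
    rw [e, Int.gcd_mul_left]
    have e2 : Int.natAbs 2 = 2 := rfl
    rw [e2]
    push_cast
    calc 2 * (Int.gcd a q : ℝ) ≤ Real.log x * Real.log x ^ T := by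
          apply mul_le_mul hL ha (Nat.cast_nonneg _) hL0.le
      _ = Real.log x ^ (T + 1) := by ring
      _ ≤ Real.log (2 * x) ^ (T + 1) := pow_le_pow_left₀ hL0.le hLL _
  obtain ⟨hfin, hcard⟩ := h0 (2 * x) (by linarith) (2 * q) (by omega) hcond (2 * a) hgcd
  obtain ⟨S, hS⟩ : ∃ S : Set ℕ, S = {n : ℕ | 0 < n ∧ (n : ℝ) ≤ 2 * x ∧ 2 ∣ n ∧ (n : ℤ) ≡ 2 * a [ZMOD ((2 * q : ℕ) : ℤ)] ∧
    ¬ Q (n / 2)} := ⟨_, rfl⟩
  rw [← hS] at hfin hcard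
  have hmap : ∀ n ∈ {n : ℕ | 0 < n ∧ (n : ℝ) ≤ x ∧ (n : ℤ) ≡ a [ZMOD q] ∧ ¬ Q n}, 2 * n ∈ S := by
    rintro n ⟨k1, k2, k3, k4⟩
    rw [hS]
    refine ⟨by omega, by push_cast; linarith, dvd_mul_right 2 n, ?_, ?_⟩
    · push_cast
      exact k3.mul_left' (c := 2)
    · rw [Nat.mul_div_cancel_left _ (by norm_num)]
      exact k4
  have hinj : Set.InjOn (fun n : ℕ => 2 * n) {n : ℕ | 0 < n ∧ (n : ℝ) ≤ x ∧ (n : ℤ) ≡ a [ZMOD q] ∧ ¬ Q n} := by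
    intro m _ n _ hmn
    simp only at hmn
    omega
  refine ⟨Set.Finite.of_injOn (fun n hn => hmap n hn) hinj hfin, ?_⟩
  have h2 : ({n : ℕ | 0 < n ∧ (n : ℝ) ≤ x ∧ (n : ℤ) ≡ a [ZMOD q] ∧ ¬ Q n}).ncard ≤ S.ncard :=
    Set.ncard_le_ncard_of_injOn (fun n : ℕ => 2 * n) hmap hinj hfin
  calc (({n : ℕ | 0 < n ∧ (n : ℝ) ≤ x ∧ (n : ℤ) ≡ a [ZMOD q] ∧ ¬ Q n}.ncard : ℕ) : ℝ) ≤ (S.ncard : ℝ) := by
        exact_mod_cast h2
    _ ≤ 2 * x / (((2 * q : ℕ) : ℝ) * Real.log (2 * x) ^ A) := hcard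
    _ ≤ 2 * x / (((2 * q : ℕ) : ℝ) * Real.log x ^ A) := by
        apply div_le_div_of_nonneg_left (by positivity) (by push_cast; positivity)
        apply mul_le_mul_of_nonneg_left _ (by positivity)
        exact pow_le_pow_left₀ hL0.le hLL _
    _ = x / (q * Real.log x ^ A) := by
        push_cast
        field_simp

end Pool.Agent.R460.GX
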